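import Pool.Agent.H48.MT.Asm4
import Pool.Agent.H79.MT.Final5

/-!
# MP_c80a4f_an: bijections of `B(H)` intertwining mean-type transforms and products

Full answer to Q1: for each of the transforms (`dh` and `mm l`, `0 ≤ l ≤ 1 / 2`), each of the five
operations and every complex Hilbert space, all bijective maps satisfying the identity.
-/

open scoped ComplexConjugate

namespace Pool.Agent.Results.MP_c80a4f_an.MeanTypePreservers

open Pool.Agent.H48.MT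

theorem result (H : Type) [NormedAddCommGroup H] [InnerProductSpace ℂ H] [CompleteSpace H] :
    -- `pol T` is the partial isometry of the polar decomposition, which exists and is unique
    (∀ T : H →L[ℂ] H, IsPol T (pol T) ∧ ∀ V, IsPol T V → V = pol T) ∧
    ∀ L : (H →L[ℂ] H) → H →L[ℂ] H, IsLam L → ∀ Φ : (H →L[ℂ] H) → H →L[ℂ] H,
      -- dimension at least two
      (2 ≤ Module.rank ℂ H →
        ((Function.Bijective Φ ∧ Eq1 L Φ) ↔ (UConj 1 Φ ∨ AConj 1 Φ)) ∧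
        ((Function.Bijective Φ ∧ Eq2 L Φ) ↔ (UConj 1 Φ ∨ AConj 1 Φ)) ∧
        ((Function.Bijective Φ ∧ Eq3 L Φ) ↔ (UConj 1 Φ ∨ AConj 1 Φ)) ∧
        (∀ n k : ℕ, 1 ≤ n + k → ((Function.Bijective Φ ∧ Eq4 n k L Φ) ↔
          ∃ α : ℂ, α ^ (n + k) = 1 ∧ (UConj α Φ ∨ AConj α Φ))) ∧
        (∀ w : ℂ, w ≠ 0 → ((Function.Bijective Φ ∧ Eq5 w L Φ) ↔
          ∃ α : ℂ, α ≠ 0 ∧ (UConj α Φ ∨ (w.im = 0 ∧ AConj α Φ))))) ∧
      -- dimension one
      (Module.rank ℂ H = 1 →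
        ((Function.Bijective Φ ∧ Eq1 L Φ) ↔ ∃ f : ℂ → ℂ, Function.Bijective f ∧
          (∀ a b, f (a * b) = f a * f b) ∧ ∀ c : ℂ, Φ (c • 1) = f c • 1) ∧
        ((Function.Bijective Φ ∧ Eq2 L Φ) ↔ ∃ f : ℂ → ℂ, Function.Bijective f ∧
          (∀ a b, f (a * b) = f a * f b) ∧ ∀ c : ℂ, Φ (c • 1) = f c • 1) ∧
        ((Function.Bijective Φ ∧ Eq3 L Φ) ↔ ∃ f : ℂ → ℂ, Function.Bijective f ∧
          (∀ a b, f (a * b) = f a * f b) ∧ (∀ a, f (conj a) = conj (f a)) ∧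
          ∀ c : ℂ, Φ (c • 1) = f c • 1) ∧
        (∀ n k : ℕ, 1 ≤ n + k → ((Function.Bijective Φ ∧ Eq4 n k L Φ) ↔
          ∃ (f : ℂ → ℂ) (z : ℂ), Function.Bijective f ∧ (∀ a b, f (a * b) = f a * f b) ∧
          z ^ (n + k) = 1 ∧ ∀ c : ℂ, Φ (c • 1) = (z * f c) • 1)) ∧
        (∀ w : ℂ, w ≠ 0 → ((Function.Bijective Φ ∧ Eq5 w L Φ) ↔ ∃ f : ℂ → ℂ,
          Function.Bijective f ∧ (∀ a b, f (a + b) = f a + f b) ∧ (∀ a, f (w * a) = w * f a) ∧
          ∀ c : ℂ, Φ (c • 1) = f c • 1))) ∧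
      -- dimension zero: `B(H)` has one element
      (Module.rank ℂ H = 0 → Function.Bijective Φ ∧ Eq1 L Φ ∧ Eq2 L Φ ∧ Eq3 L Φ ∧
        (∀ n k, Eq4 n k L Φ) ∧ ∀ w, Eq5 w L Φ) := by
  refine ⟨fun T => T_POL_holds H T, fun L hL Φ => ⟨fun h => ?_, fun h => ?_, fun h => ?_⟩⟩
  · have h2 : Two H := two_of_rank h
    exact ⟨iff1 hL h2 Φ, iff2 hL h2 Φ, iff3 hL h2 Φ, iff4 hL h2 Φ, fun w hw =>
      Pool.Agent.H79.MT5.op5 lm_proof H L hL h2 w Φ hw⟩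
  · exact Pool.Agent.H79.MT5.dim1 T_BAS_holds H (Module.rank_eq_one_iff_finrank_eq_one.1 h) L hL Φ
  · have hs : Subsingleton H := rank_zero_iff.1 h
    have hs2 : Subsingleton (H →L[ℂ] H) := ⟨fun S T => by
      ext x
      exact Subsingleton.elim _ _⟩
    exact ⟨⟨fun _ _ _ => Subsingleton.elim _ _, fun T => ⟨T, Subsingleton.elim _ _⟩⟩,
      fun _ _ => Subsingleton.elim _ _, fun _ _ => Subsingleton.elim _ _,
      fun _ _ => Subsingleton.elim _ _, fun _ _ _ _ => Subsingleton.elim _ _,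
      fun _ _ _ => Subsingleton.elim _ _⟩

end Pool.Agent.Results.MP_c80a4f_an.MeanTypePreservers
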